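import Pool.Agent.W809.CI.Fin
import Pool.Agent.W202.CI.Bk
import Pool.Agent.W397.CI.CC
import Pool.Agent.W639.CI.Pt
import Pool.Agent.W33.CI.Fop
import Pool.Agent.W696.CI.Ext
import Pool.Agent.W202.CI.Hop
import Pool.Agent.W959.CI.Hinv
import Pool.Agent.W465.CI.HStar
import Pool.Agent.W101.CI.Stg1
import Pool.Agent.W351.CI.Stg2
import Pool.Agent.W91.CI.Join
import Pool.Agent.W376.CI.Sys

set_option autoImplicit false

namespace Pool.Agent.Results.MP_b3a110_an.CoindexGrowth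

open Topology Pool.Agent.W809.CI

/-- The coindex of the `ℤ/p`-space of `p`-periodic points: the supremum of the `n ≥ 0` for which
there is a continuous equivariant map from `E_n ℤ_p` to it. -/
noncomputable def coindPer {X : Type} [TopologicalSpace X] (T : X ≃ₜ X) (p : ℕ) [NeZero p] : ℕ∞ :=
  sSup {m : ℕ∞ | ∃ n : ℕ, HasComap T p n ∧ m = n}

lemma le_coindPer_of {X : Type} [TopologicalSpace X] {T : X ≃ₜ X} {p n : ℕ} [NeZero p]
    (h : HasComap T p n) : (n : ℕ∞) ≤ coindPer T p := le_sSup ⟨n, h, rfl⟩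

/-- **Theorem.** There is a fixed-point free dynamical system `(X, T)` such that
`coind_p P_p(X) ≥ c p / log p` for every prime `p`, with a constant `c > 0`; in particular the
coindex is unbounded. -/
theorem result :
    ∃ (X : Type) (_ : TopologicalSpace X) (T : X ≃ₜ X),
      CompactSpace X ∧ TopologicalSpace.MetrizableSpace X ∧ (∀ x, T x ≠ x) ∧
      (∃ c : ℝ, 0 < c ∧ ∀ (p : ℕ) [Fact p.Prime] (n : ℕ), (n : ℝ) ≤ c * (p / Real.log p) →
        (n : ℕ∞) ≤ coindPer T p) ∧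
      ∀ K : ℕ, ∃ (p : ℕ) (_ : Fact p.Prime), (K : ℕ∞) < coindPer T p := by
  have hBK : S_BK := Pool.Agent.W202.CI.BkB.bk
  have hCC : S_CC := Pool.Agent.W397.CI.ccp hBK
  have hPT : S_PT := Pool.Agent.W639.CI.pt
  have hFOP : S_FOP := Pool.Agent.W33.CI.fopc hPT
  have hEXT : S_EXT := Pool.Agent.W696.CI.ext hPT
  have hHOP : S_HOP := Pool.Agent.W202.CI.Hop.hop hPT
  have hHCONT : S_HCONT := hcont hFOP hEXT hHOP
  have hHINV : S_HINV := Pool.Agent.W959.CI.hinv hPT hCC hHOP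
  have hHSTAR : S_HSTAR := Pool.Agent.W465.CI.hstar hPT hCC hHOP
  have hSTG1 : S_STG1 := Pool.Agent.W101.CI.stg1 hPT hHOP hHCONT
  have hSTG2 : S_STG2 := Pool.Agent.W351.CI.stg2 hPT hCC hHINV hHSTAR
  have hJOIN : S_JOIN := Pool.Agent.W91.CI.join hSTG1
  have hSYS : S_SYS := Pool.Agent.W376.CI.sys hCC
  obtain ⟨X, hX, T, h1, h2, h3, h4⟩ := main hSTG2 hJOIN hSYS
  have key : ∀ (p : ℕ) [Fact p.Prime] (n : ℕ), (n : ℝ) ≤ 1 / 3072 * (p / Real.log p) →
      (n : ℕ∞) ≤ coindPer T p := by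
    intro p hp n hn
    rcases Nat.eq_zero_or_pos n with h0 | h0
    · subst h0
      simp
    · refine le_coindPer_of (h4 p n ?_)
      have hp1 : (1 : ℝ) < p := by exact_mod_cast hp.out.one_lt
      have hlp : 0 < Real.log p := Real.log_pos hp1
      have hn1 : (1 : ℝ) ≤ n := by exact_mod_cast h0
      have e : (p : ℝ) / (1536 * Real.log p) = 1 / 1536 * (p / Real.log p) := by
        field_simp
      rw [e]
      push_cast
      linarith
  refine ⟨X, hX, T, h1, h2, h3, ⟨1 / 3072, by norm_num, key⟩, ?_⟩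
  intro K
  obtain ⟨m, hm⟩ := exists_nat_ge ((2 * (3072 * ((K : ℝ) + 1))) ^ 2)
  obtain ⟨p, hpm, hp⟩ := Nat.exists_infinite_primes (m + 2)
  have hpf : Fact p.Prime := ⟨hp⟩
  refine ⟨p, hpf, ?_⟩
  have hp1 : (1 : ℝ) < p := by exact_mod_cast hp.one_lt
  have hp0 : (0 : ℝ) < p := by linarith
  have hlp : 0 < Real.log p := Real.log_pos hp1
  have hpm' : (2 * (3072 * ((K : ℝ) + 1))) ^ 2 ≤ p := by
    have : (m : ℝ) ≤ p := by exact_mod_cast (by omega : m ≤ p)
    linarith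
  have hs0 : 0 < Real.sqrt p := Real.sqrt_pos.2 hp0
  have hsq : Real.sqrt p * Real.sqrt p = p := Real.mul_self_sqrt hp0.le
  have hlog : Real.log p ≤ 2 * Real.sqrt p := by
    have h5 : Real.log p = 2 * Real.log (Real.sqrt p) := by
      rw [Real.log_sqrt hp0.le]; ring
    have h6 := Real.log_le_sub_one_of_pos hs0
    rw [h5]
    linarith
  have hsK : 2 * (3072 * ((K : ℝ) + 1)) ≤ Real.sqrt p := Real.le_sqrt_of_sq_le hpm'
  have h7 : ((K + 1 : ℕ) : ℝ) ≤ 1 / 3072 * (p / Real.log p) := by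
    have h8 : Real.sqrt p / 2 ≤ p / Real.log p := by
      rw [le_div_iff₀ hlp]
      nlinarith
    push_cast
    linarith
  have h9 := key p (K + 1) h7
  refine lt_of_lt_of_le ?_ h9
  exact_mod_cast Nat.lt_succ_self K

end Pool.Agent.Results.MP_b3a110_an.CoindexGrowth
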